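import Pool.Agent.H796H.Theta3
import Pool.Agent.Helper272_HN.Defs
import Pool.Agent.Helper676.Hoch

set_option autoImplicit false

open Complex Module
open Pool.Agent.H796H
open Pool.Agent.Helper272_HN
open HanHoch

namespace Pool.Agent.H39H

/-! matrix algebra helpers -/

theorem mm_assoc (b c d : Mt) : mm (mm b c) d = mm b (mm c d) := by
  ext i j z
  simp only [mm, Finset.sum_apply, Pi.mul_apply, Finset.mul_sum, Finset.sum_mul]
  rw [Finset.sum_comm]
  exact Finset.sum_congr rfl fun l _ => Finset.sum_congr rfl fun m _ => by ring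

theorem mm_add (b c d : Mt) : mm b (c + d) = mm b c + mm b d := by
  ext i j z
  simp [mm, Finset.sum_apply, mul_add, Finset.sum_add_distrib]

theorem add_mm (b c d : Mt) : mm (b + c) d = mm b d + mm c d := by
  ext i j z
  simp [mm, Finset.sum_apply, add_mul, Finset.sum_add_distrib]

theorem mm_smul (b : Mt) (x : ℂ) (c : Mt) : mm b (x • c) = x • mm b c := by
  ext i j z
  simp only [mm, Finset.sum_apply, Pi.mul_apply, Pi.smul_apply, smul_eq_mul, Finset.mul_sum]
  exact Finset.sum_congr rfl fun l _ => by ring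

theorem smul_mm (b : Mt) (x : ℂ) (c : Mt) : mm (x • b) c = x • mm b c := by
  ext i j z
  simp only [mm, Finset.sum_apply, Pi.mul_apply, Pi.smul_apply, smul_eq_mul, Finset.mul_sum]
  exact Finset.sum_congr rfl fun l _ => by ring

theorem tm_mm (Q : ℂ) (b c : Mt) : tm Q (mm b c) = mm (tm Q b) (tm Q c) := by
  ext i j z
  simp [tm, mm, Finset.sum_apply]

theorem tm_add (Q : ℂ) (b c : Mt) : tm Q (b + c) = tm Q b + tm Q c := rfl

theorem tm_smul (Q : ℂ) (x : ℂ) (b : Mt) : tm Q (x • b) = x • tm Q b := rfl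

theorem sc_one_mm (n : Mt) : mm (sc 1) n = n := by
  ext i j z
  simp only [mm, sc, Finset.sum_apply, Pi.mul_apply]
  rw [Finset.sum_eq_single i]
  · simp
  · intro l _ hl
    simp [Ne.symm hl]
  · simp

theorem mm_sc_one (n : Mt) : mm n (sc 1) = n := by
  ext i j z
  simp only [mm, sc, Finset.sum_apply, Pi.mul_apply]
  rw [Finset.sum_eq_single j]
  · simp
  · intro l _ hl
    simp [hl]
  · simp

theorem tm_sc (Q x : ℂ) : tm Q (sc x) = sc x := by
  ext i j z
  simp only [tm, sc, tau_apply]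
  split_ifs <;> rfl

/-! the twisted bimodules -/

/-- `N^(d,b)_ij = Th (12 + 3 (j-i) + d) (b - 3 j Q)` -/
def Nt (Q : ℂ) (d : ℤ) (b : ℂ) : Submodule ℂ Mt where
  carrier := {n | ∀ i j, n i j ∈ Th (12 + dg i j + d) (b - (3 * ((j : ℕ) : ℂ) * Q))}
  add_mem' ha hb := fun i j => (Th _ _).add_mem (ha i j) (hb i j)
  zero_mem' := fun _ _ => (Th _ _).zero_mem
  smul_mem' c _ ha := fun i j => (Th _ _).smul_mem c (ha i j)

theorem Nt_left {Q : ℂ} {d : ℤ} {x : ℂ} {b n : Mt} (hb : b ∈ Bs) (hn : n ∈ Nt Q d x) :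
    mm b n ∈ Nt Q d x := fun i j => by
  refine Submodule.sum_mem _ fun l _ => ?_
  exact Th_congr (Th_mul (hb i l) (hn l j)) (by unfold dg; ring) (by ring)

theorem Nt_right {Q : ℂ} {d : ℤ} {x : ℂ} {b n : Mt} (hb : b ∈ Bs) (hn : n ∈ Nt Q d x) :
    mm n (tm Q b) ∈ Nt Q d x := fun i j => by
  refine Submodule.sum_mem _ fun l _ => ?_
  exact Th_congr (Th_mul (hn i l) (tau_mem (hb l j) Q)) (by unfold dg; ring)
    (by unfold dg; push_cast; ring)

/-- left multiplication on `N^(d,x)` -/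
noncomputable def lN (Q : ℂ) (d : ℤ) (x : ℂ) : A Q →ₗ[ℂ] Nt Q d x →ₗ[ℂ] Nt Q d x :=
  LinearMap.mk₂ ℂ (fun a n => ⟨mm (bm a) n.1, Nt_left (bm_mem a) n.2⟩)
    (fun a a' n => Subtype.ext (by show mm (bm (a + a')) n.1 = _; rw [bm_add, add_mm]; rfl))
    (fun c a n => Subtype.ext (by show mm (bm (c • a)) n.1 = _; rw [bm_smul, smul_mm]; rfl))
    (fun a n n' => Subtype.ext (by show mm (bm a) (n.1 + n'.1) = _; rw [mm_add]; rfl))
    (fun c a n => Subtype.ext (by show mm (bm a) (c • n.1) = _; rw [mm_smul]; rfl))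

/-- right multiplication on `N^(d,x)` -/
noncomputable def rN (Q : ℂ) (d : ℤ) (x : ℂ) : A Q →ₗ[ℂ] Nt Q d x →ₗ[ℂ] Nt Q d x :=
  LinearMap.mk₂ ℂ (fun a n => ⟨mm n.1 (tm Q (bm a)), Nt_right (bm_mem a) n.2⟩)
    (fun a a' n => Subtype.ext (by show mm n.1 (tm Q (bm (a + a'))) = _; rw [bm_add, tm_add, mm_add]; rfl))
    (fun c a n => Subtype.ext (by show mm n.1 (tm Q (bm (c • a))) = _; rw [bm_smul, tm_smul, mm_smul]; rfl))
    (fun a n n' => Subtype.ext (by show mm (n.1 + n'.1) (tm Q (bm a)) = _; rw [add_mm]; rfl))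
    (fun c a n => Subtype.ext (by show mm (c • n.1) (tm Q (bm a)) = _; rw [smul_mm]; rfl))

@[simp] theorem lN_val (Q : ℂ) (d : ℤ) (x : ℂ) (a : A Q) (n : Nt Q d x) :
    (lN Q d x a n).1 = mm (bm a) n.1 := rfl

@[simp] theorem rN_val (Q : ℂ) (d : ℤ) (x : ℂ) (a : A Q) (n : Nt Q d x) :
    (rN Q d x a n).1 = mm n.1 (tm Q (bm a)) := rfl

/-- the dual bimodule of `N^(d,x)` -/
noncomputable def ND (Q : ℂ) (d : ℤ) (x : ℂ) : Bim ℂ (A Q) where
  V := Nt Q d x →ₗ[ℂ] ℂ
  l := LinearMap.mk₂ ℂ (fun a φ => φ.comp (rN Q d x a))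
    (fun a a' φ => by ext n; simp [map_add]) (fun c a φ => by ext n; simp)
    (fun a φ φ' => by ext n; simp) (fun c a φ => by ext n; simp)
  r := LinearMap.mk₂ ℂ (fun a φ => φ.comp (lN Q d x a))
    (fun a a' φ => by ext n; simp [map_add]) (fun c a φ => by ext n; simp)
    (fun a φ φ' => by ext n; simp) (fun c a φ => by ext n; simp)
  l_mul a b φ := by
    refine LinearMap.ext fun n => ?_
    show φ (rN Q d x (a * b) n) = φ (rN Q d x b (rN Q d x a n))
    congr 1; apply Subtype.ext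
    simp only [rN_val, bm_mul, tm_mm, mm_assoc]
  r_mul a b φ := by
    refine LinearMap.ext fun n => ?_
    show φ (lN Q d x (a * b) n) = φ (lN Q d x a (lN Q d x b n))
    congr 1; apply Subtype.ext
    simp only [lN_val, bm_mul, mm_assoc]
  l_r a b φ := by
    refine LinearMap.ext fun n => ?_
    show φ (lN Q d x b (rN Q d x a n)) = φ (rN Q d x a (lN Q d x b n))
    congr 1; apply Subtype.ext
    simp only [lN_val, rN_val, mm_assoc]
  l_one φ := by
    refine LinearMap.ext fun n => ?_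
    show φ (rN Q d x 1 n) = φ n
    congr 1; apply Subtype.ext
    simp only [rN_val, bm_one, tm_sc, mm_sc_one]

/-- evaluation of an element at a point: the matrix `(b_ij(P))` acting on columns -/
noncomputable def evm {Q : ℂ} (P : ℂ) : A Q →ₗ[ℂ] (Fin 3 → ℂ) →ₗ[ℂ] (Fin 3 → ℂ) :=
  LinearMap.mk₂ ℂ (fun a v => fun i => ∑ l, bm a i l P * v l)
    (fun a a' v => by ext i; simp [bm_add, add_mul, Finset.sum_add_distrib])
    (fun c a v => by
      ext i; simp only [bm_smul, Pi.smul_apply, smul_eq_mul, Finset.mul_sum]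
      exact Finset.sum_congr rfl fun l _ => by ring)
    (fun a v v' => by ext i; simp [mul_add, Finset.sum_add_distrib])
    (fun c a v => by
      ext i; simp only [Pi.smul_apply, smul_eq_mul, Finset.mul_sum]
      exact Finset.sum_congr rfl fun l _ => by ring)

theorem evm_apply {Q : ℂ} (P : ℂ) (a : A Q) (v : Fin 3 → ℂ) (i : Fin 3) :
    evm P a v i = ∑ l, bm a i l P * v l := rfl

theorem evm_mul {Q : ℂ} (P : ℂ) (a b : A Q) (v : Fin 3 → ℂ) :
    evm P (a * b) v = evm P a (evm P b v) := by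
  ext i
  simp only [evm_apply, bm_mul, mm, Finset.sum_apply, Pi.mul_apply, Finset.mul_sum, Finset.sum_mul]
  rw [Finset.sum_comm]
  exact Finset.sum_congr rfl fun l _ => Finset.sum_congr rfl fun m _ => by ring

theorem evm_one {Q : ℂ} (P : ℂ) (v : Fin 3 → ℂ) : evm P (1 : A Q) v = v := by
  ext i
  simp only [evm_apply, bm_one, sc]
  rw [Finset.sum_eq_single i]
  · simp
  · intro l _ hl
    simp [Ne.symm hl]
  · simp

/-- `Hom_k(X_R, X_S)` -/
noncomputable def XX (Q R S : ℂ) : Bim ℂ (A Q) where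
  V := (Fin 3 → ℂ) →ₗ[ℂ] (Fin 3 → ℂ)
  l := LinearMap.mk₂ ℂ (fun a f => (evm S a).comp f)
    (fun a a' f => by ext n; simp [map_add]) (fun c a f => by ext n; simp)
    (fun a f f' => by ext n; simp) (fun c a f => by ext n; simp)
  r := LinearMap.mk₂ ℂ (fun a f => f.comp (evm R a))
    (fun a a' f => by ext n; simp [map_add]) (fun c a f => by ext n; simp)
    (fun a f f' => by ext n; simp) (fun c a f => by ext n; simp)
  l_mul a b f := by
    refine LinearMap.ext fun v => ?_
    exact evm_mul S a b (f v)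
  r_mul a b f := by
    refine LinearMap.ext fun v => ?_
    exact congrArg f (evm_mul R a b v)
  l_r a b f := rfl
  l_one f := by
    refine LinearMap.ext fun v => ?_
    exact evm_one S (f v)

end Pool.Agent.H39H
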