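import Pool.Agent.Helper212Han.Sec6
import Pool.Agent.Helper676.Iso
import Pool.Agent.H702Han.Bridge
import Pool.Agent.H39H.Bm
import Pool.Agent.Helper272_HN.Fd

set_option autoImplicit false

/-! Project HAN: section 6 for the algebra `A Q`. -/

open Complex Module
open Pool.Agent.H796H
open Pool.Agent.Helper272_HN
open Pool.Agent.Helper212Han
open HanHoch

namespace Pool.Agent.H39H

variable {Q : ℂ}

theorem zmm (b : Mt) : mm 0 b = 0 := by
  ext i j z
  simp [mm, Finset.sum_apply]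

theorem mmz (b : Mt) : mm b 0 = 0 := by
  ext i j z
  simp [mm, Finset.sum_apply]

theorem tmz (Q : ℂ) : tm Q 0 = 0 := rfl

theorem nm_one : nm (1 : A Q) = 0 := by
  have : (1 : A Q) = mk (sc_mem 1) (Submodule.zero_mem (Ns Q)) := by
    apply Subtype.ext
    show (1 : Module.End ℂ G) = act Q (sc 1) 0
    rw [act_sc, map_one]
  rw [this, nm_mk]

/-- the element `(b, 0)` -/
def p0 (a : A Q) : A Q := mk (bm_mem a) (Submodule.zero_mem (Ns Q))

theorem bm_p0 (a : A Q) : bm (p0 a) = bm a := bm_mk _ _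

theorem nm_p0 (a : A Q) : nm (p0 a) = 0 := nm_mk _ _

theorem p0_add (a b : A Q) : p0 (a + b) = p0 a + p0 b :=
  ext_A (by rw [bm_p0, bm_add, bm_add, bm_p0, bm_p0]) (by rw [nm_p0, nm_add, nm_p0, nm_p0, add_zero])

theorem p0_smul (c : ℂ) (a : A Q) : p0 (c • a) = c • p0 a :=
  ext_A (by rw [bm_p0, bm_smul, bm_smul, bm_p0]) (by rw [nm_p0, nm_smul, nm_p0, smul_zero])

theorem p0_one : p0 (1 : A Q) = 1 := ext_A (bm_p0 _) (by rw [nm_p0, nm_one])

theorem p0_mul (a b : A Q) : p0 (a * b) = p0 a * p0 b :=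
  ext_A (by rw [bm_p0, bm_mul, bm_mul, bm_p0, bm_p0])
    (by rw [nm_p0, nm_mul, nm_p0, nm_p0, bm_p0, bm_p0, mmz, zmm, add_zero])

/-- the projection `(b, n) ↦ (b, 0)` -/
noncomputable def prA (Q : ℂ) : A Q →ₐ[ℂ] A Q :=
  AlgHom.ofLinearMap { toFun := p0, map_add' := p0_add, map_smul' := p0_smul } p0_one p0_mul

theorem bm_pr (a : A Q) : bm (prA Q a) = bm a := bm_p0 _

theorem nm_pr (a : A Q) : nm (prA Q a) = 0 := nm_p0 _

theorem pr_eq_zero {a : A Q} : prA Q a = 0 ↔ bm a = 0 := by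
  constructor
  · intro h
    rw [← bm_pr a, h]
    rfl
  · intro h
    refine ext_A ?_ ?_
    · rw [bm_pr, h]; rfl
    · rw [nm_pr]; rfl

/-- the matrix unit -/
def eM (i : Fin 3) : Mt := fun a b => if a = i ∧ b = i then 1 else 0

theorem eM_mem (i : Fin 3) : eM i ∈ Bs := fun a b => by
  unfold eM
  split_ifs with h
  · rw [h.1, h.2]
    rw [show dg _ _ = 0 by unfold dg; ring]
    exact const_mem 1
  · exact Submodule.zero_mem _

theorem eM_mm (i : Fin 3) (b : Mt) : mm (eM i) b = fun a c => if a = i then b i c else 0 := by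
  ext a c z
  simp only [mm, eM, Finset.sum_apply, Pi.mul_apply]
  rw [Finset.sum_eq_single i]
  · by_cases h : a = i
    · simp [h]
    · simp [h]
  · intro l _ hl
    simp [hl]
  · simp

theorem mm_eM (i : Fin 3) (b : Mt) : mm b (eM i) = fun a c => if c = i then b a i else 0 := by
  ext a c z
  simp only [mm, eM, Finset.sum_apply, Pi.mul_apply]
  rw [Finset.sum_eq_single i]
  · by_cases h : c = i
    · simp [h]
    · simp [h]
  · intro l _ hl
    simp [hl]
  · simp

/-- the idempotents -/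
noncomputable def eA (Q : ℂ) (i : Fin 3) : A Q := mk (eM_mem i) (Submodule.zero_mem (Ns Q))

theorem bm_eA (i : Fin 3) : bm (eA Q i) = eM i := bm_mk _ _

theorem nm_eA (i : Fin 3) : nm (eA Q i) = 0 := nm_mk _ _

theorem bm_diag (a : A Q) (i : Fin 3) : bm a i i = fun _ => bm a i i 0 := by
  have h := bm_mem a i i
  rw [show dg i i = 0 by unfold dg; ring] at h
  obtain ⟨c, hc⟩ := zeroTh h
  rw [hc]

theorem bm_low (a : A Q) {i j : Fin 3} (h : j < i) : bm a i j = 0 := by
  refine negTh ?_ (bm_mem a i j)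
  have : (j : ℕ) < (i : ℕ) := h
  unfold dg
  omega

/-- the characters -/
noncomputable def chA (Q : ℂ) (i : Fin 3) : A Q →ₐ[ℂ] ℂ :=
  AlgHom.ofLinearMap
    { toFun := fun a => bm a i i 0
      map_add' := fun a b => by rw [bm_add]; rfl
      map_smul' := fun c a => by rw [bm_smul]; rfl }
    (by show bm (1 : A Q) i i 0 = 1; rw [bm_one]; simp [sc])
    (fun a b => by
      show bm (a * b) i i 0 = bm a i i 0 * bm b i i 0
      rw [bm_mul]
      simp only [mm, Finset.sum_apply, Pi.mul_apply]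
      rw [Finset.sum_eq_single i]
      · intro l _ hl
        rcases lt_or_gt_of_ne hl with h | h
        · rw [bm_low a h]; simp
        · rw [bm_low b h]; simp
      · simp)

theorem chA_apply (i : Fin 3) (a : A Q) : chA Q i a = bm a i i 0 := rfl

theorem horthA (i j : Fin 3) : eA Q i * eA Q j = if i = j then eA Q i else 0 := by
  refine ext_A ?_ ?_
  · rw [bm_mul, bm_eA, bm_eA, eM_mm]
    by_cases h : i = j
    · subst h
      rw [if_pos rfl, bm_eA]
      ext a c z
      by_cases h1 : a = i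
      · simp [eM, h1]
      · simp [eM, h1]
    · rw [if_neg h]
      ext a c z
      show (if a = i then eM j i c else 0) z = 0
      have : eM j i c = 0 := by simp [eM, h]
      rw [this]
      simp
  · rw [nm_mul, bm_eA, nm_eA, nm_eA, bm_eA, mmz, zmm, add_zero]
    by_cases h : i = j
    · rw [if_pos h, nm_eA]
    · rw [if_neg h]; rfl

theorem hsumA : ∑ j, eA Q j = 1 := by
  rw [Fin.sum_univ_three]
  refine ext_A ?_ ?_
  · rw [bm_add, bm_add, bm_eA, bm_eA, bm_eA, bm_one]
    ext a c z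
    fin_cases a <;> fin_cases c <;> simp [eM, sc]
  · rw [nm_add, nm_add, nm_eA, nm_eA, nm_eA, nm_one]
    simp

theorem bm_eae (a : A Q) (i j : Fin 3) :
    bm (eA Q i * prA Q a * eA Q j) = fun p q => if p = i ∧ q = j then bm a i j else 0 := by
  rw [bm_mul, bm_mul, bm_eA, bm_eA, bm_pr, eM_mm, mm_eM]
  ext p q z
  by_cases h1 : q = j
  · by_cases h2 : p = i
    · simp [h1, h2]
    · simp [h1, h2]
  · simp [h1]

theorem nm_eae (a : A Q) (i j : Fin 3) : nm (eA Q i * prA Q a * eA Q j) = 0 := by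
  rw [nm_mul, nm_mul, nm_eA, nm_eA, nm_pr, mmz, mmz, zmm, add_zero, zmm, add_zero]

theorem htriA (a : A Q) (i j : Fin 3) (h : j < i) : eA Q i * prA Q a * eA Q j = 0 := by
  refine ext_A ?_ ?_
  · rw [bm_eae, bm_low a h]
    ext p q z
    show (if p = i ∧ q = j then (0 : ℂ → ℂ) else 0) z = 0
    split_ifs <;> rfl
  · rw [nm_eae]; rfl

theorem hdiagA (a : A Q) (i : Fin 3) : eA Q i * prA Q a * eA Q i = chA Q i a • eA Q i := by
  refine ext_A ?_ ?_
  · rw [bm_eae, bm_smul, bm_eA, bm_diag, chA_apply]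
    ext p q z
    show (if p = i ∧ q = i then (fun _ => bm a i i 0) else (0 : ℂ → ℂ)) z
      = bm a i i 0 * (eM i p q z)
    unfold eM
    by_cases h : p = i ∧ q = i
    · rw [if_pos h, if_pos h]; simp
    · rw [if_neg h, if_neg h]; simp
  · rw [nm_eae, nm_smul, nm_eA, smul_zero]

theorem hprA (a : A Q) : prA Q (prA Q a) = prA Q a :=
  ext_A (by rw [bm_pr]) (by rw [nm_pr, nm_pr])

theorem hNA (x y : A Q) (hx : prA Q x = 0) (hy : prA Q y = 0) : x * y = 0 := by
  rw [pr_eq_zero] at hx hy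
  refine ext_A ?_ ?_
  · rw [bm_mul, hx, zmm]; rfl
  · rw [nm_mul, hx, hy, zmm, tmz, mmz, add_zero]; rfl

theorem mem_Nt00 {n : Mt} : n ∈ Nt Q 0 0 ↔ n ∈ Ns Q := by
  constructor
  · intro h i j
    exact Th_congr (h i j) (by ring) (by ring)
  · intro h i j
    exact Th_congr (h i j) (by ring) (by ring)


end Pool.Agent.H39H
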