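import Pool.Agent.Helper212Han.Sec6
import Pool.Agent.Helper676.Iso
import Pool.Agent.H702Han.Bridge

set_option autoImplicit false

/-! Project HAN: section 6 in the form used for the algebra `A Q`. -/

open Pool.Agent.Helper212Han
open HanHoch

namespace Pool.Agent.H39H

variable {k : Type} [Field k] {A : Type} [Ring A] [Algebra k A]

/-- identification of a bimodule with the dual of the ideal `ker pr` -/
def isoG (pr : A →ₐ[k] A) (M : Bim k A)
    (φ : M.V ≃ₗ[k] (LinearMap.ker pr.toLinearMap →ₗ[k] k))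
    (hl : ∀ a f (x y : LinearMap.ker pr.toLinearMap), y.1 = x.1 * a → φ (M.l a f) x = φ f y)
    (hr : ∀ a f (x y : LinearMap.ker pr.toLinearMap), y.1 = a * x.1 → φ (M.r a f) x = φ f y) :
    BIso M (Du (NB pr) (NB_r1 pr)) where
  e := φ
  l := by
    intro a f
    refine LinearMap.ext fun x => ?_
    exact hl a f x _ rfl
  r := by
    intro a f
    refine LinearMap.ext fun x => ?_
    exact hr a f x _ rfl

/-- the dual of the regular bimodule -/
def isoD : BIso (Du (AB k A) AB_r1) (Dual k A) where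
  e := (show (A →ₗ[k] k) ≃ₗ[k] (A →ₗ[k] k) from LinearEquiv.refl k _)
  l := by
    intro a f
    rfl
  r := by
    intro a f
    rfl

theorem s6g {N : ℕ} (pr : A →ₐ[k] A) (e : Fin N → A) (χ : Fin N → (A →ₐ[k] k))
    (horth : ∀ i j : Fin N, e i * e j = if i = j then e i else 0)
    (hsum : ∑ j, e j = 1)
    (htri : ∀ a (i j : Fin N), j < i → e i * pr a * e j = 0)
    (hdiag : ∀ a (i : Fin N), e i * pr a * e i = χ i a • e i)
    (hpr : ∀ a, pr (pr a) = pr a) (hN : ∀ x y, pr x = 0 → pr y = 0 → x * y = 0)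
    (M : Bim k A) (φ : M.V ≃ₗ[k] (LinearMap.ker pr.toLinearMap →ₗ[k] k))
    (hl : ∀ a f (x y : LinearMap.ker pr.toLinearMap), y.1 = x.1 * a → φ (M.l a f) x = φ f y)
    (hr : ∀ a f (x y : LinearMap.ker pr.toLinearMap), y.1 = a * x.1 → φ (M.r a f) x = φ f y)
    (h : ∀ n, HVan n M) (n : ℕ) (hn : 1 ≤ n) : HVan n (Dual k A) := by
  obtain ⟨m, rfl⟩ : ∃ m, n = m + 1 := ⟨n - 1, by omega⟩
  exact HVan.iso isoD (m + 1) (sec6 pr e χ horth hsum htri hdiag hpr hN
    (fun n => HVan.iso (isoG pr M φ hl hr) n (h n)) m)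

end Pool.Agent.H39H
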