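import Pool.Agent.H39H.S6a
import Pool.Agent.H39H.S6g
set_option autoImplicit false
open Complex Module
open Pool.Agent.H796H
open Pool.Agent.Helper272_HN
open HanHoch
namespace Pool.Agent.H39H
variable {Q : ℂ}

/-- `ker pr` is `N` -/
noncomputable def kerN (Q : ℂ) : LinearMap.ker (prA Q).toLinearMap ≃ₗ[ℂ] Nt Q 0 0 :=
  LinearEquiv.ofBijective
    ({ toFun := fun x => ⟨nm x.1, mem_Nt00.2 (nm_mem x.1)⟩
       map_add' := fun x y => Subtype.ext (nm_add _ _)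
       map_smul' := fun c x => Subtype.ext (nm_smul _ _) } :
       LinearMap.ker (prA Q).toLinearMap →ₗ[ℂ] Nt Q 0 0)
    ⟨fun x y h => by
        have h1 : nm x.1 = nm y.1 := congrArg Subtype.val h
        have hx : bm x.1 = 0 := pr_eq_zero.1 x.2
        have hy : bm y.1 = 0 := pr_eq_zero.1 y.2
        exact Subtype.ext (ext_A (by rw [hx, hy]) h1),
     fun n => by
        have hz : (0 : Mt) ∈ Bs := Submodule.zero_mem Bs
        refine ⟨⟨mk hz (mem_Nt00.1 n.2), ?_⟩, ?_⟩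
        · show prA Q (mk hz (mem_Nt00.1 n.2)) = 0
          rw [pr_eq_zero, bm_mk]
        · refine Subtype.ext ?_
          show nm (mk hz (mem_Nt00.1 n.2)) = n.1
          rw [nm_mk]⟩

theorem kerN_val (x : LinearMap.ker (prA Q).toLinearMap) : (kerN Q x).1 = nm x.1 := rfl

noncomputable def dualN (Q : ℂ) :
    (Nt Q 0 0 →ₗ[ℂ] ℂ) ≃ₗ[ℂ] (LinearMap.ker (prA Q).toLinearMap →ₗ[ℂ] ℂ) :=
  (kerN Q).dualMap

theorem dualN_apply (f : Nt Q 0 0 →ₗ[ℂ] ℂ) (x : LinearMap.ker (prA Q).toLinearMap) :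
    dualN Q f x = f (kerN Q x) := rfl

theorem dl (a : A Q) (f : Nt Q 0 0 →ₗ[ℂ] ℂ) (x y : LinearMap.ker (prA Q).toLinearMap)
    (hy : y.1 = x.1 * a) : dualN Q (f.comp (rN Q 0 0 a)) x = dualN Q f y := by
  rw [dualN_apply, dualN_apply, LinearMap.comp_apply]
  congr 1
  refine Subtype.ext ?_
  rw [rN_val, kerN_val, kerN_val, hy]
  have hx : bm x.1 = 0 := pr_eq_zero.1 x.2
  rw [nm_mul, hx, zmm, zero_add]

theorem dr (a : A Q) (f : Nt Q 0 0 →ₗ[ℂ] ℂ) (x y : LinearMap.ker (prA Q).toLinearMap)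
    (hy : y.1 = a * x.1) : dualN Q (f.comp (lN Q 0 0 a)) x = dualN Q f y := by
  rw [dualN_apply, dualN_apply, LinearMap.comp_apply]
  congr 1
  refine Subtype.ext ?_
  rw [lN_val, kerN_val, kerN_val, hy]
  have hx : bm x.1 = 0 := pr_eq_zero.1 x.2
  rw [nm_mul, hx, tmz, mmz, add_zero]

abbrev KT {k A : Type} [Field k] [Ring A] [Algebra k A] (pr : A →ₐ[k] A) : Submodule k A := LinearMap.ker pr.toLinearMap
abbrev PT {k A : Type} [Field k] [Ring A] [Algebra k A] (pr : A →ₐ[k] A) (M : Bim k A) : Type := M.V ≃ₗ[k] (LinearMap.ker pr.toLinearMap →ₗ[k] k)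

noncomputable def b1 (Q : ℂ) : PT (k := ℂ) (A := A Q) (prA Q) (ND Q 0 0) := dualN Q
theorem b2 : ∀ (a : A Q) (f : (ND Q 0 0).V) (x y : KT (k := ℂ) (A := A Q) (prA Q)), y.1 = x.1 * a → b1 Q ((ND Q 0 0).l a f) x = b1 Q f y := dl
theorem b3 : ∀ (a : A Q) (f : (ND Q 0 0).V) (x y : KT (k := ℂ) (A := A Q) (prA Q)), y.1 = a * x.1 → b1 Q ((ND Q 0 0).r a f) x = b1 Q f y := dr
def Horth {k A : Type} [Field k] [Ring A] [Algebra k A] {N : ℕ} (e : Fin N → A) : Prop := ∀ i j : Fin N, e i * e j = if i = j then e i else 0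
def Hsum {k A : Type} [Field k] [Ring A] [Algebra k A] {N : ℕ} (e : Fin N → A) : Prop := ∑ j, e j = 1
def Htri {k A : Type} [Field k] [Ring A] [Algebra k A] {N : ℕ} (pr : A →ₐ[k] A) (e : Fin N → A) : Prop := ∀ a (i j : Fin N), j < i → e i * pr a * e j = 0
def Hdiag {k A : Type} [Field k] [Ring A] [Algebra k A] {N : ℕ} (pr : A →ₐ[k] A) (e : Fin N → A) (χ : Fin N → (A →ₐ[k] k)): Prop := ∀ a (i : Fin N), e i * pr a * e i = χ i a • e i
def Hpr {k A : Type} [Field k] [Ring A] [Algebra k A] (pr : A →ₐ[k] A) : Prop := ∀ a, pr (pr a) = pr a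
def HN {k A : Type} [Field k] [Ring A] [Algebra k A] (pr : A →ₐ[k] A) : Prop := ∀ x y, pr x = 0 → pr y = 0 → x * y = 0
theorem a1 : Horth (k := ℂ) (A := A Q) (eA Q) := horthA
theorem a2 : Hsum (k := ℂ) (A := A Q) (eA Q) := hsumA
theorem a3 : Htri (k := ℂ) (A := A Q) (prA Q) (eA Q) := htriA
theorem a4 : Hdiag (k := ℂ) (A := A Q) (prA Q) (eA Q) (chA Q) := hdiagA
theorem a5 : Hpr (k := ℂ) (A := A Q) (prA Q) := hprA
theorem a6 : HN (k := ℂ) (A := A Q) (prA Q) := hNA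

theorem s6t (h : ∀ n, HVan (k := ℂ) (A := A Q) n (ND Q 0 0)) :
    ∀ n, 1 ≤ n → HVan (k := ℂ) (A := A Q) n (Dual ℂ (A Q)) :=
  s6g (k := ℂ) (A := A Q) (prA Q) (eA Q) (chA Q) a1 a2 a3 a4 a5 a6 (ND Q 0 0) (b1 Q) b2 b3 h

/-- **Section 6 for `A Q`.** -/
theorem s6 (h : ∀ n, HVan n (ND Q 0 0)) (n : ℕ) (hn : 1 ≤ n) : HVan n (Dual ℂ (A Q)) := s6t h n hn

end Pool.Agent.H39H
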