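import Mathlib

set_option autoImplicit false

namespace Pool.Agent.H39H

/-- Section 3, degree 1: a homomorphism `I' → T` extends to `P2 → T`.
`i' : I' → P2`, `i : I → I'`, `q : I' → X'` with kernel `i(I)`, `s : P11 → I` onto,
`j : P0 → P11` with `s ∘ j = 0`. -/
theorem extend_I' {A P2 I' I P11 P0 X' T : Type*} [Ring A]
    [AddCommGroup P2] [Module A P2] [AddCommGroup I'] [Module A I'] [AddCommGroup I] [Module A I]
    [AddCommGroup P11] [Module A P11] [AddCommGroup P0] [Module A P0]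
    [AddCommGroup X'] [Module A X'] [AddCommGroup T] [Module A T]
    (i' : I' →ₗ[A] P2) (i : I →ₗ[A] I') (q : I' →ₗ[A] X') (s : P11 →ₗ[A] I) (j : P0 →ₗ[A] P11)
    (hq : Function.Surjective q) (hex : ∀ x, q x = 0 → ∃ y, i y = x) (hqi : ∀ y, q (i y) = 0)
    (hs : Function.Surjective s) (hsj : ∀ x, s (j x) = 0)
    (hX : ∀ f : X' →ₗ[A] T, f = 0)
    (hE : ∀ χ : P11 →ₗ[A] T, (∀ x, χ (j x) = 0) → ∃ ψ : P2 →ₗ[A] T, ∀ x, ψ (i' (i (s x))) = χ x)
    (φ : I' →ₗ[A] T) : ∃ ψ : P2 →ₗ[A] T, ∀ x, ψ (i' x) = φ x := by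
  obtain ⟨ψ, hψ⟩ := hE (φ ∘ₗ i ∘ₗ s) (fun x => by simp [hsj])
  refine ⟨ψ, ?_⟩
  -- the difference vanishes on `I`, hence factors over `X'`
  set δ : I' →ₗ[A] T := ψ ∘ₗ i' - φ with hδ
  have hδI : ∀ y, δ (i y) = 0 := by
    intro y
    obtain ⟨x, rfl⟩ := hs y
    have := hψ x
    simp only [hδ, LinearMap.sub_apply, LinearMap.comp_apply] at this ⊢
    rw [this]; simp
  have hker : LinearMap.ker q ≤ LinearMap.ker δ := by
    intro x hx
    obtain ⟨y, rfl⟩ := hex x hx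
    exact hδI y
  have hfac : ∃ f : X' →ₗ[A] T, f ∘ₗ q = δ := by
    let e := q.quotKerEquivOfSurjective hq
    refine ⟨(Submodule.liftQ _ δ hker) ∘ₗ e.symm.toLinearMap, ?_⟩
    ext x
    simp only [LinearMap.comp_apply, LinearEquiv.coe_coe]
    have : e.symm (q x) = Submodule.Quotient.mk x := by
      rw [LinearEquiv.symm_apply_eq]
      rfl
    rw [this]
    simp
  obtain ⟨f, hf⟩ := hfac
  intro x
  have h0 : δ x = 0 := by rw [← hf, hX f]; simp
  have : ψ (i' x) - φ x = 0 := h0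
  exact sub_eq_zero.mp this

/-- Section 3, degree 2: a homomorphism `Z → T` extends to `P11 → T`.
`z : Z → P11`, `j0 : P0 → Z`, `q : Z → X'` onto with kernel `j0(P0)`. -/
theorem extend_Z {A Z P11 P0 X' T : Type*} [Ring A]
    [AddCommGroup Z] [Module A Z]
    [AddCommGroup P11] [Module A P11] [AddCommGroup P0] [Module A P0]
    [AddCommGroup X'] [Module A X'] [AddCommGroup T] [Module A T]
    (z : Z →ₗ[A] P11) (j0 : P0 →ₗ[A] Z) (q : Z →ₗ[A] X')
    (hq : Function.Surjective q) (hex : ∀ x, q x = 0 → ∃ y, j0 y = x)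
    (hX : ∀ f : X' →ₗ[A] T, f = 0)
    (hE : ∀ χ : P0 →ₗ[A] T, ∃ ψ : P11 →ₗ[A] T, ∀ x, ψ (z (j0 x)) = χ x)
    (φ : Z →ₗ[A] T) : ∃ ψ : P11 →ₗ[A] T, ∀ x, ψ (z x) = φ x := by
  obtain ⟨ψ, hψ⟩ := hE (φ ∘ₗ j0)
  refine ⟨ψ, ?_⟩
  set δ : Z →ₗ[A] T := ψ ∘ₗ z - φ with hδ
  have hker : LinearMap.ker q ≤ LinearMap.ker δ := by
    intro x hx
    obtain ⟨y, rfl⟩ := hex x hx
    have := hψ y
    simp only [hδ, LinearMap.mem_ker, LinearMap.sub_apply, LinearMap.comp_apply] at this ⊢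
    rw [this]; simp
  have hfac : ∃ f : X' →ₗ[A] T, f ∘ₗ q = δ := by
    let e := q.quotKerEquivOfSurjective hq
    refine ⟨(Submodule.liftQ _ δ hker) ∘ₗ e.symm.toLinearMap, ?_⟩
    ext x
    simp only [LinearMap.comp_apply, LinearEquiv.coe_coe]
    have : e.symm (q x) = Submodule.Quotient.mk x := by
      rw [LinearEquiv.symm_apply_eq]
      rfl
    rw [this]
    simp
  obtain ⟨f, hf⟩ := hfac
  intro x
  have h0 : δ x = 0 := by rw [← hf, hX f]; simp
  have : ψ (z x) - φ x = 0 := h0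
  exact sub_eq_zero.mp this

/-- Section 3, the induction.  `EX p n` means `Ext^n(X_p, T) = 0`, etc. -/
theorem vanish_all {ι : Type*} (next : ι → ι) (good : ι → Prop) (hgood : ∀ p, good p → good (next p))
    (EX EI' EI EZ : ι → ℕ → Prop)
    (h1 : ∀ p n, 1 ≤ n → EI' p n → EX p (n + 1))
    (h2 : ∀ p n, 1 ≤ n → EI p n → EX (next p) n → EI' p n)
    (h3 : ∀ p n, 1 ≤ n → EZ p n → EI p (n + 1))
    (h4 : ∀ p n, 1 ≤ n → EX (next p) n → EZ p n)
    (h5 : ∀ p, good p → EX p 1) (h6 : ∀ p, good p → EI p 1) :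
    ∀ n, 1 ≤ n → ∀ p, good p → EX p n := by
  intro n
  induction n using Nat.strong_induction_on with
  | _ n ih =>
    intro hn p hp
    match n, hn, ih with
    | 1, _, _ => exact h5 p hp
    | 2, _, ih =>
      exact h1 p 1 le_rfl (h2 p 1 le_rfl (h6 p hp) (ih 1 (by omega) le_rfl _ (hgood p hp)))
    | m + 3, _, ih =>
      refine h1 p (m + 2) (by omega) (h2 p (m + 2) (by omega) ?_ (ih (m + 2) (by omega) (by omega) _ (hgood p hp)))
      exact h3 p (m + 1) (by omega) (h4 p (m + 1) (by omega) (ih (m + 1) (by omega) (by omega) _ (hgood p hp)))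

end Pool.Agent.H39H
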