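import Pool.Agent.H39H.Bm

set_option autoImplicit false

open Complex Module
open Pool.Agent.H796H
open Pool.Agent.Helper272_HN
open HanHoch

namespace Pool.Agent.H39H

/-- multiplication of all entries by a function -/
def ms (s : ℂ → ℂ) (n : Mt) : Mt := fun i j => n i j * s

theorem ms_add (s : ℂ → ℂ) (n n' : Mt) : ms s (n + n') = ms s n + ms s n' := by
  ext i j z; simp [ms, add_mul]

theorem ms_smul (s : ℂ → ℂ) (c : ℂ) (n : Mt) : ms s (c • n) = c • ms s n := by
  ext i j z; simp [ms, mul_assoc]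

theorem mm_ms_right (s : ℂ → ℂ) (b n : Mt) : mm b (ms s n) = ms s (mm b n) := by
  ext i j z
  simp only [mm, ms, Finset.sum_apply, Pi.mul_apply, Finset.sum_mul]
  exact Finset.sum_congr rfl fun l _ => by ring

theorem mm_ms_left (s : ℂ → ℂ) (n b : Mt) : mm (ms s n) b = ms s (mm n b) := by
  ext i j z
  simp only [mm, ms, Finset.sum_apply, Pi.mul_apply, Finset.sum_mul]
  exact Finset.sum_congr rfl fun l _ => by ring

/-- multiplication by `s ∈ Th m e` as a map `N^(d,x) → N^(d',x')` -/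
noncomputable def sM (Q : ℂ) {d m d' : ℤ} {x e x' : ℂ} (s : ℂ → ℂ) (hs : s ∈ Th m e)
    (hd : d + m = d') (hx : x + e = x') : Nt Q d x →ₗ[ℂ] Nt Q d' x' where
  toFun n := ⟨ms s n.1, fun i j => Th_congr (Th_mul (n.2 i j) hs) (by rw [← hd]; ring)
    (by rw [← hx]; ring)⟩
  map_add' n n' := Subtype.ext (ms_add s n.1 n'.1)
  map_smul' c n := Subtype.ext (ms_smul s c n.1)

@[simp] theorem sM_val (Q : ℂ) {d m d' : ℤ} {x e x' : ℂ} (s : ℂ → ℂ) (hs : s ∈ Th m e)
    (hd : d + m = d') (hx : x + e = x') (n : Nt Q d x) : (sM Q s hs hd hx n).1 = ms s n.1 := rfl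

theorem sM_l (Q : ℂ) {d m d' : ℤ} {x e x' : ℂ} (s : ℂ → ℂ) (hs : s ∈ Th m e)
    (hd : d + m = d') (hx : x + e = x') (a : A Q) (n : Nt Q d x) :
    sM Q s hs hd hx (lN Q d x a n) = lN Q d' x' a (sM Q s hs hd hx n) := by
  apply Subtype.ext; simp [mm_ms_right]

theorem sM_r (Q : ℂ) {d m d' : ℤ} {x e x' : ℂ} (s : ℂ → ℂ) (hs : s ∈ Th m e)
    (hd : d + m = d') (hx : x + e = x') (a : A Q) (n : Nt Q d x) :
    sM Q s hs hd hx (rN Q d x a n) = rN Q d' x' a (sM Q s hs hd hx n) := by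
  apply Subtype.ext; simp [mm_ms_left]

theorem sM_inj (Q : ℂ) {d m d' : ℤ} {x e x' : ℂ} (s : ℂ → ℂ) (hs : s ∈ Th m e)
    (hd : d + m = d') (hx : x + e = x') (hne : s ≠ 0) :
    Function.Injective (sM Q s hs hd hx : Nt Q d x →ₗ[ℂ] Nt Q d' x') := by
  rw [← LinearMap.ker_eq_bot, LinearMap.ker_eq_bot']
  intro n hn
  apply Subtype.ext
  funext i j
  have h1 : n.1 i j * s = 0 := congrFun (congrFun (congrArg Subtype.val hn) i) j
  rcases ent_mul (n.2 i j).1 hs.1 h1 with h | h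
  · exact h
  · exact absurd h hne

/-- evaluation at `R` of the matrix `n` -/
noncomputable def evN (Q : ℂ) (d : ℤ) (x R : ℂ) : Nt Q d x →ₗ[ℂ] (Fin 3 → Fin 3 → ℂ) where
  toFun n := fun i j => n.1 i j R
  map_add' _ _ := rfl
  map_smul' _ _ := rfl

@[simp] theorem evN_apply (Q : ℂ) (d : ℤ) (x R : ℂ) (n : Nt Q d x) (i j : Fin 3) :
    evN Q d x R n i j = n.1 i j R := rfl

theorem dg_ge (i j : Fin 3) : -6 ≤ dg i j := by
  unfold dg
  have := i.2
  omega

theorem evN_surj (Q : ℂ) (d : ℤ) (hd : 0 ≤ d) (x R : ℂ) : Function.Surjective (evN Q d x R) := by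
  intro w
  have h : ∀ i j : Fin 3, ∃ f ∈ Th (12 + dg i j + d) (x - (3 * ((j : ℕ) : ℂ) * Q)), f R ≠ 0 :=
    fun i j => bpf (by have := dg_ge i j; omega) _ _
  choose f hf hfR using h
  refine ⟨⟨fun i j => (w i j / f i j R) • f i j, fun i j => (Th _ _).smul_mem _ (hf i j)⟩, ?_⟩
  funext i j
  show (w i j / f i j R) * f i j R = w i j
  exact div_mul_cancel₀ _ (hfR i j)

/-- a matrix vanishing at `R` is divisible by `thp R` -/
theorem evN_ker (Q : ℂ) {d d' : ℤ} (hd : 0 ≤ d) {x x' : ℂ} (R : ℂ) (hdd : d + 1 = d')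
    (hx : x + (eth - R) = x') (n : Nt Q d' x') (hn : evN Q d' x' R n = 0) :
    ∃ n' : Nt Q d x, sM Q (thp R) (thp_mem R) hdd hx n' = n := by
  have h : ∀ i j : Fin 3, ∃ g ∈ Th (12 + dg i j + d' - 1) (x' - (3 * ((j : ℕ) : ℂ) * Q) - eth + R),
      n.1 i j = thp R * g := fun i j =>
    divTh (by have := dg_ge i j; omega) (n.2 i j) (congrFun (congrFun hn i) j)
  choose g hg hgn using h
  refine ⟨⟨g, fun i j => Th_congr (hg i j) (by omega) (by rw [← hx]; ring)⟩, ?_⟩
  apply Subtype.ext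
  funext i j
  show g i j * thp R = n.1 i j
  rw [hgn, mul_comm]

/-- the functional on matrices given by `f : X_R → X_S` -/
noncomputable def fun1 (f : (Fin 3 → ℂ) →ₗ[ℂ] (Fin 3 → ℂ)) : (Fin 3 → Fin 3 → ℂ) →ₗ[ℂ] ℂ where
  toFun w := ∑ i, ∑ j, w i j * f (Pi.single i 1) j
  map_add' w w' := by simp [add_mul, Finset.sum_add_distrib]
  map_smul' c w := by simp [Finset.mul_sum, mul_assoc]

theorem fun1_apply (f : (Fin 3 → ℂ) →ₗ[ℂ] (Fin 3 → ℂ)) (w : Fin 3 → Fin 3 → ℂ) :
    fun1 f w = ∑ i, ∑ j, w i j * f (Pi.single i 1) j := rfl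

/-- the inclusion `Hom_k(X_R, X_S) → (N^(d,x))^*` -/
noncomputable def incl (Q : ℂ) (d : ℤ) (x R : ℂ) :
    ((Fin 3 → ℂ) →ₗ[ℂ] (Fin 3 → ℂ)) →ₗ[ℂ] (Nt Q d x →ₗ[ℂ] ℂ) where
  toFun f := (fun1 f).comp (evN Q d x R)
  map_add' f g := by
    ext n; simp [fun1_apply, mul_add, Finset.sum_add_distrib]
  map_smul' c f := by
    ext n
    simp only [LinearMap.comp_apply, fun1_apply, LinearMap.smul_apply, Pi.smul_apply, smul_eq_mul,
      RingHom.id_apply, Finset.mul_sum]
    exact Finset.sum_congr rfl fun l _ => Finset.sum_congr rfl fun m _ => by ring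

theorem incl_apply (Q : ℂ) (d : ℤ) (x R : ℂ) (f : (Fin 3 → ℂ) →ₗ[ℂ] (Fin 3 → ℂ)) (n : Nt Q d x) :
    incl Q d x R f n = ∑ i, ∑ j, n.1 i j R * f (Pi.single i 1) j := rfl

/-- a linear map in terms of its values on the basis -/
theorem lin_exp (f : (Fin 3 → ℂ) →ₗ[ℂ] (Fin 3 → ℂ)) (v : Fin 3 → ℂ) (j : Fin 3) :
    f v j = ∑ i, v i * f (Pi.single i 1) j := by
  have h : v = ∑ i, v i • (Pi.single i (1 : ℂ) : Fin 3 → ℂ) := by
    ext l
    simp [Finset.sum_apply, Pi.single_apply]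
  conv_lhs => rw [h]
  simp [map_sum, Finset.sum_apply]

/-- the exact sequence `0 → Hom(X_R, X_{R-Q}) → (N^(d+1,x'))^* → (N^(d,x))^* → 0` -/
noncomputable def sesN (Q : ℂ) {d d' : ℤ} (hd : 0 ≤ d) {x x' : ℂ} (R : ℂ) (hdd : d + 1 = d')
    (hx : x + (eth - R) = x') : SES (XX Q R (R - Q)) (ND Q d' x') (ND Q d x) where
  i := incl Q d' x' R
  p := LinearMap.lcomp ℂ ℂ (sM Q (thp R) (thp_mem R) hdd hx)
  il := by
    intro a f
    change (Fin 3 → ℂ) →ₗ[ℂ] (Fin 3 → ℂ) at f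
    refine LinearMap.ext fun n => ?_
    show incl Q d' x' R ((evm (R - Q) a).comp f) n = incl Q d' x' R f (rN Q d' x' a n)
    simp only [incl_apply, rN_val, mm, Finset.sum_apply, Pi.mul_apply, LinearMap.comp_apply,
      evm_apply, Finset.sum_mul, Finset.mul_sum, tm, tau_apply]
    refine Finset.sum_congr rfl fun i _ => ?_
    rw [Finset.sum_comm]
    exact Finset.sum_congr rfl fun l _ => Finset.sum_congr rfl fun m _ => by ring
  ir := by
    intro a f
    change (Fin 3 → ℂ) →ₗ[ℂ] (Fin 3 → ℂ) at f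
    refine LinearMap.ext fun n => ?_
    show incl Q d' x' R (f.comp (evm R a)) n = incl Q d' x' R f (lN Q d' x' a n)
    simp only [incl_apply, lN_val, mm, Finset.sum_apply, Pi.mul_apply, LinearMap.comp_apply]
    have h : ∀ i j, f (evm R a (Pi.single i 1)) j = ∑ l, bm a l i R * f (Pi.single l 1) j := by
      intro i j
      rw [lin_exp]
      refine Finset.sum_congr rfl fun l _ => ?_
      congr 1
      rw [evm_apply, Finset.sum_eq_single i]
      · simp
      · intro m _ hm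
        simp [Pi.single_apply, hm]
      · simp
    simp only [h, Finset.mul_sum, Finset.sum_mul]
    -- Σ_i Σ_j Σ_l n_ij b_li F_lj = Σ_l Σ_j Σ_i b_li n_ij F_lj
    calc ∑ i, ∑ j, ∑ l, n.1 i j R * (bm a l i R * f (Pi.single l 1) j)
        = ∑ i, ∑ l, ∑ j, n.1 i j R * (bm a l i R * f (Pi.single l 1) j) :=
          Finset.sum_congr rfl fun i _ => Finset.sum_comm
      _ = ∑ l, ∑ i, ∑ j, n.1 i j R * (bm a l i R * f (Pi.single l 1) j) := Finset.sum_comm
      _ = ∑ l, ∑ j, ∑ i, n.1 i j R * (bm a l i R * f (Pi.single l 1) j) :=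
          Finset.sum_congr rfl fun l _ => Finset.sum_comm
      _ = _ := Finset.sum_congr rfl fun l _ => Finset.sum_congr rfl fun j _ =>
          Finset.sum_congr rfl fun i _ => by ring
  pl := by
    intro a φ
    change Nt Q d' x' →ₗ[ℂ] ℂ at φ
    refine LinearMap.ext fun n => ?_
    show φ _ = φ _
    exact congrArg φ (sM_r Q (thp R) (thp_mem R) hdd hx a n).symm
  pr := by
    intro a φ
    change Nt Q d' x' →ₗ[ℂ] ℂ at φ
    refine LinearMap.ext fun n => ?_
    show φ _ = φ _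
    exact congrArg φ (sM_l Q (thp R) (thp_mem R) hdd hx a n).symm
  inj := by
    intro f g h
    change (Fin 3 → ℂ) →ₗ[ℂ] (Fin 3 → ℂ) at f g
    refine LinearMap.ext fun v => funext fun j => ?_
    rw [lin_exp, lin_exp g]
    refine Finset.sum_congr rfl fun i _ => ?_
    congr 1
    obtain ⟨n, hn⟩ := evN_surj Q d' (by omega) x' R (fun i' j' => if i' = i ∧ j' = j then 1 else 0)
    have h1 := congrArg (fun u : Nt Q d' x' →ₗ[ℂ] ℂ => u n) h
    have h2 : ∀ F : (Fin 3 → ℂ) →ₗ[ℂ] (Fin 3 → ℂ), incl Q d' x' R F n = F (Pi.single i 1) j := by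
      intro F
      show fun1 F (evN Q d' x' R n) = _
      rw [hn, fun1_apply, Finset.sum_eq_single i, Finset.sum_eq_single j]
      · simp
      · intro b _ hb; simp [hb]
      · simp
      · intro b _ hb; simp [hb]
      · simp
    have h3 : incl Q d' x' R f n = incl Q d' x' R g n := h1
    rw [h2, h2] at h3
    exact h3
  surj := by
    intro ψ
    change Nt Q d x →ₗ[ℂ] ℂ at ψ
    obtain ⟨s, hs⟩ := LinearMap.exists_leftInverse_of_injective
      (sM Q (thp R) (thp_mem R) hdd hx : Nt Q d x →ₗ[ℂ] Nt Q d' x')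
      (LinearMap.ker_eq_bot.2 (sM_inj Q _ _ hdd hx (thp_ne R)))
    refine ⟨ψ.comp s, ?_⟩
    refine LinearMap.ext fun n => ?_
    show ψ (s (sM Q (thp R) (thp_mem R) hdd hx n)) = ψ n
    exact congrArg ψ (congrArg (fun u : Nt Q d x →ₗ[ℂ] Nt Q d x => u n) hs)
  pi := by
    intro f
    change (Fin 3 → ℂ) →ₗ[ℂ] (Fin 3 → ℂ) at f
    refine LinearMap.ext fun n => ?_
    show fun1 f (evN Q d' x' R (sM Q (thp R) (thp_mem R) hdd hx n)) = 0
    have : evN Q d' x' R (sM Q (thp R) (thp_mem R) hdd hx n) = 0 := by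
      funext i j
      show n.1 i j R * thp R R = 0
      rw [thp_self, mul_zero]
    rw [this, map_zero]
  ex := by
    intro φ hφ
    change Nt Q d' x' →ₗ[ℂ] ℂ at φ
    have hφ' : ∀ n : Nt Q d x, φ (sM Q (thp R) (thp_mem R) hdd hx n) = 0 := fun n =>
      congrArg (fun u : Nt Q d x →ₗ[ℂ] ℂ => u n) hφ
    obtain ⟨t, ht⟩ := LinearMap.exists_rightInverse_of_surjective (evN Q d' x' R)
      (LinearMap.range_eq_top.2 (evN_surj Q d' (by omega) x' R))
    have ht' : ∀ w, evN Q d' x' R (t w) = w := fun w =>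
      congrArg (fun u : (Fin 3 → Fin 3 → ℂ) →ₗ[ℂ] (Fin 3 → Fin 3 → ℂ) => u w) ht
    let E : Fin 3 → Fin 3 → (Fin 3 → Fin 3 → ℂ) := fun i j i' j' => if i' = i ∧ j' = j then 1 else 0
    let f : (Fin 3 → ℂ) →ₗ[ℂ] (Fin 3 → ℂ) :=
      { toFun := fun v => fun j => ∑ i, v i * φ (t (E i j))
        map_add' := by intro v v'; ext j; simp [add_mul, Finset.sum_add_distrib]
        map_smul' := by intro c v; ext j; simp [Finset.mul_sum, mul_assoc] }
    have hf : ∀ i j, f (Pi.single i 1) j = φ (t (E i j)) := by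
      intro i j
      show ∑ i', (Pi.single i (1 : ℂ) : Fin 3 → ℂ) i' * φ (t (E i' j)) = _
      rw [Finset.sum_eq_single i]
      · simp
      · intro b _ hb; simp [Pi.single_apply, hb]
      · simp
    refine ⟨f, ?_⟩
    refine LinearMap.ext fun n => ?_
    show incl Q d' x' R f n = φ n
    rw [incl_apply]
    have hw : evN Q d' x' R n = ∑ i, ∑ j, (n.1 i j R) • E i j := by
      funext i' j'
      simp only [evN_apply, Finset.sum_apply, Pi.smul_apply, smul_eq_mul, E]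
      rw [Finset.sum_eq_single i', Finset.sum_eq_single j']
      · simp
      · intro b _ hb; simp [Ne.symm hb]
      · simp
      · intro b _ hb; simp [Ne.symm hb]
      · simp
    have h1 : φ n = φ (t (evN Q d' x' R n)) := by
      have h2 : evN Q d' x' R (n - t (evN Q d' x' R n)) = 0 := by rw [map_sub, ht', sub_self]
      obtain ⟨n', hn'⟩ := evN_ker Q hd R hdd hx _ h2
      have h3 := hφ' n'
      rw [hn', map_sub] at h3
      exact sub_eq_zero.1 h3
    rw [h1, hw]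
    simp only [map_sum, map_smul, smul_eq_mul, hf]

end Pool.Agent.H39H
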