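import Pool.Agent.H39H.Seq
import Pool.Agent.Helper676.Eig
import Pool.Agent.Helper272_HN.Fd

set_option autoImplicit false

open Complex Module
open Pool.Agent.H796H
open Pool.Agent.Helper272_HN
open HanHoch

namespace Pool.Agent.H39H

section gen
variable {k : Type} [Field k] {A : Type} [Ring A] [Algebra k A]

/-- kernel of a bimodule map -/
def kerB {M Q : Bim k A} (p : M.V →ₗ[k] Q.V) (hl : ∀ a v, p (M.l a v) = Q.l a (p v))
    (hr : ∀ a v, p (M.r a v) = Q.r a (p v)) : Bim k A where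
  V := LinearMap.ker p
  l := LinearMap.mk₂ k (fun a v => ⟨M.l a v.1, by
      rw [LinearMap.mem_ker, hl, LinearMap.mem_ker.1 v.2, map_zero]⟩)
    (fun a a' v => Subtype.ext (by simp)) (fun c a v => Subtype.ext (by simp))
    (fun a v v' => Subtype.ext (by simp)) (fun c a v => Subtype.ext (by simp))
  r := LinearMap.mk₂ k (fun a v => ⟨M.r a v.1, by
      rw [LinearMap.mem_ker, hr, LinearMap.mem_ker.1 v.2, map_zero]⟩)
    (fun a a' v => Subtype.ext (by simp)) (fun c a v => Subtype.ext (by simp))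
    (fun a v v' => Subtype.ext (by simp)) (fun c a v => Subtype.ext (by simp))
  l_mul a b v := Subtype.ext (M.l_mul a b v.1)
  r_mul a b v := Subtype.ext (M.r_mul a b v.1)
  l_r a b v := Subtype.ext (M.l_r a b v.1)
  l_one v := Subtype.ext (M.l_one v.1)

/-- the exact sequence of a surjective bimodule map -/
def kerSES {M Q : Bim k A} (p : M.V →ₗ[k] Q.V) (hl : ∀ a v, p (M.l a v) = Q.l a (p v))
    (hr : ∀ a v, p (M.r a v) = Q.r a (p v)) (hs : Function.Surjective p) :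
    SES (kerB p hl hr) M Q where
  i := (LinearMap.ker p).subtype
  p := p
  il _ _ := rfl
  ir _ _ := rfl
  pl := hl
  pr := hr
  inj := Subtype.val_injective
  surj := hs
  pi x := LinearMap.mem_ker.1 x.2
  ex m hm := ⟨⟨m, hm⟩, rfl⟩

/-- the kernel of (a multiple of) a composition is an extension of the kernels -/
theorem ker_comp {K1 K2 M N Q : Bim k A} (S2 : SES K2 M N) (S1 : SES K1 N Q) (c : k) (hc : c ≠ 0)
    (p : M.V →ₗ[k] Q.V) (hp : ∀ x, p x = c • S1.p (S2.p x))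
    (hl : ∀ a v, p (M.l a v) = Q.l a (p v)) (hr : ∀ a v, p (M.r a v) = Q.r a (p v))
    (n : ℕ) (h1 : HVan n K1) (h2 : HVan n K2) : HVan n (kerB p hl hr) := by
  obtain ⟨t, ht⟩ := LinearMap.exists_leftInverse_of_injective S1.i
    (LinearMap.ker_eq_bot.2 S1.inj)
  have ht' : ∀ y, t (S1.i y) = y := fun y => congrArg (fun u : K1.V →ₗ[k] K1.V => u y) ht
  have hin : ∀ x : LinearMap.ker p, S1.i (t (S2.p x.1)) = S2.p x.1 := by
    intro x
    have h := LinearMap.mem_ker.1 x.2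
    rw [hp, smul_eq_zero] at h
    obtain ⟨y, hy⟩ := S1.ex _ (h.resolve_left hc)
    rw [← hy, ht']
  have S : SES K2 (kerB p hl hr) K1 :=
    { i := S2.i.codRestrict (LinearMap.ker p) (fun v => by
        rw [LinearMap.mem_ker, hp, S2.pi, map_zero, smul_zero])
      p := (t.comp S2.p).comp (LinearMap.ker p).subtype
      il := fun a v => Subtype.ext (S2.il a v)
      ir := fun a v => Subtype.ext (S2.ir a v)
      pl := by
        intro a v
        apply S1.inj
        rw [S1.il]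
        have h1 := hin v
        have h2 := hin ((kerB p hl hr).l a v)
        refine h2.trans ?_
        show S2.p (M.l a v.1) = N.l a (S1.i (t (S2.p v.1)))
        rw [h1, S2.pl]
      pr := by
        intro a v
        apply S1.inj
        rw [S1.ir]
        have h1 := hin v
        have h2 := hin ((kerB p hl hr).r a v)
        refine h2.trans ?_
        show S2.p (M.r a v.1) = N.r a (S1.i (t (S2.p v.1)))
        rw [h1, S2.pr]
      inj := fun x y h => S2.inj (congrArg Subtype.val h)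
      surj := by
        intro y
        obtain ⟨x, hx⟩ := S2.surj (S1.i y)
        refine ⟨⟨x, ?_⟩, ?_⟩
        · rw [LinearMap.mem_ker, hp, hx, S1.pi, smul_zero]
        · show t (S2.p x) = y
          rw [hx, ht']
      pi := by
        intro x
        show t (S2.p (S2.i x)) = 0
        rw [S2.pi, map_zero]
      ex := by
        intro m hm
        have h0 : S2.p m.1 = 0 := by
          rw [← hin m]
          have : t (S2.p m.1) = 0 := hm
          rw [this, map_zero]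
        obtain ⟨x, hx⟩ := S2.ex _ h0
        exact ⟨x, Subtype.ext hx⟩ }
  exact HVan.mid S n h2 h1

end gen

/-- dual of multiplication by `s`, as a map `(N^(d',x'))^* → (N^(d,x))^*` -/
noncomputable def sD (Q : ℂ) {d m d' : ℤ} {x e x' : ℂ} (s : ℂ → ℂ) (hs : s ∈ Th m e)
    (hd : d + m = d') (hx : x + e = x') : (ND Q d' x').V →ₗ[ℂ] (ND Q d x).V :=
  (show (Nt Q d' x' →ₗ[ℂ] ℂ) →ₗ[ℂ] (Nt Q d x →ₗ[ℂ] ℂ) from
    LinearMap.lcomp ℂ ℂ (sM Q s hs hd hx))

theorem sD_l (Q : ℂ) {d m d' : ℤ} {x e x' : ℂ} (s : ℂ → ℂ) (hs : s ∈ Th m e)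
    (hd : d + m = d') (hx : x + e = x') (a : A Q) (φ : (ND Q d' x').V) :
    sD Q s hs hd hx ((ND Q d' x').l a φ) = (ND Q d x).l a (sD Q s hs hd hx φ) := by
  change Nt Q d' x' →ₗ[ℂ] ℂ at φ
  refine LinearMap.ext fun n => ?_
  exact congrArg φ (sM_r Q s hs hd hx a n).symm

theorem sD_r (Q : ℂ) {d m d' : ℤ} {x e x' : ℂ} (s : ℂ → ℂ) (hs : s ∈ Th m e)
    (hd : d + m = d') (hx : x + e = x') (a : A Q) (φ : (ND Q d' x').V) :
    sD Q s hs hd hx ((ND Q d' x').r a φ) = (ND Q d x).r a (sD Q s hs hd hx φ) := by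
  change Nt Q d' x' →ₗ[ℂ] ℂ at φ
  refine LinearMap.ext fun n => ?_
  exact congrArg φ (sM_l Q s hs hd hx a n).symm

theorem sD_surj (Q : ℂ) {d m d' : ℤ} {x e x' : ℂ} (s : ℂ → ℂ) (hs : s ∈ Th m e)
    (hd : d + m = d') (hx : x + e = x') (hne : s ≠ 0) :
    Function.Surjective (sD Q s hs hd hx) := by
  intro ψ
  change Nt Q d x →ₗ[ℂ] ℂ at ψ
  obtain ⟨t, ht⟩ := LinearMap.exists_leftInverse_of_injective
    (sM Q s hs hd hx : Nt Q d x →ₗ[ℂ] Nt Q d' x')
    (LinearMap.ker_eq_bot.2 (sM_inj Q _ _ hd hx hne))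
  refine ⟨ψ.comp t, ?_⟩
  refine LinearMap.ext fun n => ?_
  show ψ (t (sM Q s hs hd hx n)) = ψ n
  exact congrArg ψ (congrArg (fun u : Nt Q d x →ₗ[ℂ] Nt Q d x => u n) ht)

/-- multiplication by a nonzero section of degree two: the kernel of the dual map is acyclic -/
theorem two_ker (Q : ℂ) (x : ℂ) (h : ∀ R n, HVan n (XX Q R (R - Q))) (s : ℂ → ℂ) (hs : s ∈ Th 2 0)
    (hne : s ≠ 0) : ∃ (K : Bim ℂ (A Q)) (S : SES K (ND Q 2 x) (ND Q 0 x)),
      S.p = sD Q s hs (by norm_num) (by ring) ∧ ∀ n, HVan n K := by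
  obtain ⟨r, t, c, hc, hrt, hst⟩ := twoTh hs hne
  have S1 : SES (XX Q r (r - Q)) (ND Q 1 (x + (eth - r))) (ND Q 0 x) :=
    sesN Q le_rfl r (by norm_num) rfl
  refine ⟨kerB (sD Q s hs (by norm_num) (by ring)) (sD_l Q s hs _ _) (sD_r Q s hs _ _),
    kerSES _ _ _ (sD_surj Q s hs _ _ hne), rfl, fun n => ?_⟩
  have hx2 : x + (eth - r) + (eth - t) = x := by
    have : r + t = 2 * eth := by rw [hrt]; ring
    linear_combination -this
  refine ker_comp (sesN Q (d := 1) (d' := 2) (by norm_num) t (by norm_num) hx2)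
    (sesN Q (d := 0) (d' := 1) le_rfl r (by norm_num) (rfl : x + (eth - r) = _)) c hc _ ?_ _ _ n
    (h r n) (h t n)
  intro φ
  change Nt Q 2 x →ₗ[ℂ] ℂ at φ
  refine LinearMap.ext fun m => ?_
  show φ (sM Q s hs _ _ m) = c • φ (sM Q (thp t) (thp_mem t) _ _ (sM Q (thp r) (thp_mem r) _ _ m))
  rw [← map_smul]
  congr 1
  apply Subtype.ext
  funext i j z
  simp only [sM_val, ms, hst, Pi.mul_apply, Pi.smul_apply, smul_eq_mul, Submodule.coe_smul]
  ring

/-- finite dimensionality of `N^(d,x)` -/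
theorem fin_Nt (Q : ℂ) (d : ℤ) (hd : 0 ≤ d) (x : ℂ) : FiniteDimensional ℂ (Nt Q d x) := by
  have : ∀ i j : Fin 3, FiniteDimensional ℂ
      (Th (12 + dg i j + d) (x - (3 * ((j : ℕ) : ℂ) * Q))) := fun i j =>
    finTh (by have := dg_ge i j; omega) _
  let F : Nt Q d x →ₗ[ℂ] ((i : Fin 3) → (j : Fin 3) →
      Th (12 + dg i j + d) (x - (3 * ((j : ℕ) : ℂ) * Q))) :=
    { toFun := fun n i j => ⟨n.1 i j, n.2 i j⟩
      map_add' := fun _ _ => rfl
      map_smul' := fun _ _ => rfl }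
  refine FiniteDimensional.of_injective F ?_
  intro n n' h
  apply Subtype.ext
  funext i j
  exact congrArg Subtype.val (congrFun (congrFun h i) j)

/-- Section 5. -/
theorem van_N (Q : ℂ) (x : ℂ) (h : ∀ R n, HVan n (XX Q R (R - Q))) : ∀ n, HVan n (ND Q 0 x) := by
  obtain ⟨u, hu, v, hv, hind, -⟩ := exists_pencil 0
  have := fin_Nt Q 0 le_rfl x
  have : FiniteDimensional ℂ (ND Q 0 x).V := by
    show FiniteDimensional ℂ (Nt Q 0 x →ₗ[ℂ] ℂ)
    exact Module.Finite.linearMap ℂ ℂ (Nt Q 0 x) ℂ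
  have hv0 : v ≠ 0 := by
    intro h0
    have := hind 0 1 (by rw [h0]; simp)
    exact one_ne_zero this.2
  refine eig (ND Q 2 x) (ND Q 0 x) (sD Q v hv (by norm_num) (by ring))
    (sD Q u hu (by norm_num) (by ring)) (two_ker Q x h v hv hv0) ?_
  intro c
  have hs : u - c • v ∈ Th 2 0 := (Th 2 0).sub_mem hu ((Th 2 0).smul_mem c hv)
  have hne : u - c • v ≠ 0 := by
    intro h0
    have := hind 1 (-c) (by rw [one_smul, neg_smul, ← sub_eq_add_neg]; exact h0)
    exact one_ne_zero this.1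
  obtain ⟨K, S, hp, hK⟩ := two_ker Q x h (u - c • v) hs hne
  refine ⟨K, S, ?_, hK⟩
  rw [hp]
  refine LinearMap.ext fun φ => ?_
  change Nt Q 2 x →ₗ[ℂ] ℂ at φ
  refine LinearMap.ext fun m => ?_
  show φ (sM Q (u - c • v) hs _ _ m) = φ (sM Q u hu _ _ m) - c • φ (sM Q v hv _ _ m)
  rw [← map_smul, ← map_sub]
  congr 1
  apply Subtype.ext
  funext i j z
  simp only [sM_val, ms, Pi.mul_apply, Pi.smul_apply, Pi.sub_apply, smul_eq_mul,
    Submodule.coe_smul, AddSubgroupClass.coe_sub]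
  ring

end Pool.Agent.H39H
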